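import Pool.Agent.TH765.MBForce

/-!
# `D(ℵ₁, ℵ₂)` holds after the Levy collapse of a measurable cardinal to `ω₂`

So the statement that `D(λ, κ)` implies `κ ≥ (2^λ)⁺` is not provable in ZFC, if measurable
cardinals are consistent.
-/

set_option autoImplicit false

namespace Pool.Agent.Results.MP_0c777d_lc.CollapseBoards

open Cardinal Pool.Agent.Helper669.Forcing Pool.Agent.Helper669.K Pool.Agent.H995R3
open Pool.Agent.TH765.MB

/-- Let `κ` be measurable and let `LC` be the Levy collapse `Col(ω₁, <κ)` (the countable partial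
functions `g` from `κ × ω₁` to `κ` with `g (β, ξ) < β`).

1. Every condition forces that `ℵ₁` and `κ` stay regular, that each cardinal below `κ` gets
cardinality at most `ℵ₁` (so `κ` becomes `ℵ₂`), the continuum hypothesis, and the hypothesis
`Hyp K L` for `K = κ` and each set `L` with fewer than `κ` elements in the ground model, among them
`L = ω₁`.
2. (A theorem of ZFC, so also true in the extension.) `Hyp K L` implies that all multiboard
Gale-Stewart games with boards `K` and moves in `L` are determined.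
3. (As well.) If `K` has `ℵ₂` and `L` has `ℵ₁` elements then `2 ^ |L| < |K|` fails. -/
theorem result :
    (∀ κ : Cardinal.{0}, IsMeasurable κ →
      ∀ p : LC (ℵ₁ : Cardinal.{0}).ord.ToType κ.ord.ToType,
        p ∈ StaysRegular (LC (ℵ₁ : Cardinal.{0}).ord.ToType κ.ord.ToType) ℵ₁ ∧
        p ∈ StaysRegular (LC (ℵ₁ : Cardinal.{0}).ord.ToType κ.ord.ToType) κ ∧
        p ∈ CollapsedBelow (LC (ℵ₁ : Cardinal.{0}).ord.ToType κ.ord.ToType) κ ∧
        p ∈ ForcesCH (LC (ℵ₁ : Cardinal.{0}).ord.ToType κ.ord.ToType) ∧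
        ℵ₁ < κ ∧
        ∀ L : Type, #L < κ →
          p ∈ HypN (LC (ℵ₁ : Cardinal.{0}).ord.ToType κ.ord.ToType) κ.ord.ToType L) ∧
    (∀ K L : Type, Nonempty L → Hyp K L → Determined K L) ∧
    (∀ K L : Type, #K = ℵ_ 2 → #L = ℵ₁ → ¬ (2 : Cardinal.{0}) ^ #L < #K) := by
  refine ⟨fun κ hκ p => ?_, fun K L _ h => determined_of_hyp h, fun K L hK hL h => ?_⟩
  · obtain ⟨h1, h2, h3, h4⟩ := collapse_facts hκ p
    refine ⟨h1, h2, h3, h4, ?_, fun L hL => hypN_collapse hκ L hL p⟩
    obtain ⟨_, h5⟩ := regular_of_measurable hκ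
    refine lt_of_le_of_lt ?_ (h5 _ hκ.1)
    rw [← succ_aleph0]
    exact Order.succ_le_of_lt (cantor _)
  · rw [hK, hL] at h
    have h1 : (ℵ_ 2 : Cardinal.{0}) ≤ 2 ^ (ℵ₁ : Cardinal.{0}) := by
      have h2 : (2 : Ordinal.{0}) = Order.succ 1 := by
        rw [← Ordinal.add_one_eq_succ]
        norm_num
      rw [h2, aleph_succ]
      exact Order.succ_le_of_lt (cantor _)
    exact absurd h (not_lt.2 h1)

end Pool.Agent.Results.MP_0c777d_lc.CollapseBoards
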